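import Mathlib

namespace Pool.Agent.MP_c71a08_an

/-- The operator norm of a complex matrix on `ℓ^∞_n`: the largest row sum of moduli. -/
noncomputable def opNorm {n : ℕ} (T : Matrix (Fin n) (Fin n) ℂ) : ℝ := ⨆ i, ∑ j, ‖T i j‖

/-- `M_n(r) = sup { |T^q| : |T| ≤ 1, spectral radius of T ≤ r }`, `q = n² - n + 1`. -/
noncomputable def M (n : ℕ) (r : ℝ) : ℝ :=
  sSup {t : ℝ | ∃ T : Matrix (Fin n) (Fin n) ℂ, opNorm T ≤ 1 ∧ (∀ μ ∈ spectrum ℂ T, ‖μ‖ ≤ r) ∧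
    t = opNorm (T ^ (n ^ 2 - n + 1))}

end Pool.Agent.MP_c71a08_an
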